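import Pool.Agent.Y111.DI.Edge

/-!
# Derived invariance of the numbers of holomorphic forms
-/

namespace Pool.Agent.Results.MP_b4fe5e_ag.HolomorphicForms

open Pool.Agent.TH125.Tw Pool.Agent.Y111.DI

/-- Let `f : X → Z` be the (anti)canonical morphism of the variety `X`, `κ = dim Z`, and `F` the
general fibre. By the decomposition theorem the part of type `(q, 0)` or `(0, q)` of the `a`-th layer
is the part of this type of the primitive intersection cohomology of `Z` with values in the
variation of Hodge structure `H^j(F, ℚ)`, `j = q + a - κ` (nothing for `j < 0`), since holomorphic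
forms are determined by their restriction to open subsets. For `j = 0` and `j = 1` its dimension is
called `base q` and `one q`. -/
structure IsFibredOver {n : ℕ} (X : Twisted n) (κ : ℕ) (base one : ℕ → ℕ) : Prop where
  below : ∀ a q, q + a < κ → layerNumber X a q 0 = 0 ∧ layerNumber X a 0 q = 0
  bottom : ∀ a q, q + a = κ → layerNumber X a q 0 = base q ∧ layerNumber X a 0 q = base q
  next : ∀ a q, q + a = κ + 1 → layerNumber X a q 0 = one q ∧ layerNumber X a 0 q = one q

/-- Let `X` and `Y` be smooth projective complex varieties of dimension `n` with equivalent derived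
categories whose canonical bundles (`ε = -1`) or anticanonical bundles (`ε = 1`) are semiample of
Iitaka dimension at least `n - 4`. Then `h^{q,0}` and `h^{0,q}` agree for `X` and `Y`, for all `q`. -/
theorem result {n : ℕ} (X Y : Twisted n) (ε : ℤˣ) (hX : LayerRelations X ε)
    (hY : LayerRelations Y ε) (Φ : Transform X Y) (κ : ℕ) (hκ : n ≤ κ + 4) (base one : ℕ → ℕ)
    (fX : IsFibredOver X κ base one) (fY : IsFibredOver Y κ base one) (q : ℕ) :
    X.hodgeNumber q 0 = Y.hodgeNumber q 0 ∧ X.hodgeNumber 0 q = Y.hodgeNumber 0 q := by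
  constructor
  · refine forms hX hY Φ (Or.inr rfl) fun a h => ?_
    rcases (by omega : q + a < κ ∨ q + a = κ ∨ q + a = κ + 1) with h1 | h1 | h1
    · rw [(fX.below a q h1).1, (fY.below a q h1).1]
    · rw [(fX.bottom a q h1).1, (fY.bottom a q h1).1]
    · rw [(fX.next a q h1).1, (fY.next a q h1).1]
  · refine forms hX hY Φ (Or.inl rfl) fun a h => ?_
    rcases (by omega : q + a < κ ∨ q + a = κ ∨ q + a = κ + 1) with h1 | h1 | h1
    · rw [(fX.below a q h1).2, (fY.below a q h1).2]
    · rw [(fX.bottom a q h1).2, (fY.bottom a q h1).2]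
    · rw [(fX.next a q h1).2, (fY.next a q h1).2]

end Pool.Agent.Results.MP_b4fe5e_ag.HolomorphicForms
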