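import Pool.Agent.Y111.DI.Five

/-!
# Derived invariance of Hodge numbers: fivefolds with semiample (anti)canonical bundle
-/

namespace Pool.Agent.Results.MP_b4fe5e_ag.SemiampleFivefolds

open Pool.Agent.TH125.Tw Pool.Agent.Y111.DI

/-- Let `f : X → Z` be the (anti)canonical morphism of the fivefold `X`, `κ = dim Z`. By the
decomposition theorem the part of type `(p, q)` of the `a`-th layer, `p + q + a ≤ 2`, is the part of
type `(p, q)` of the primitive intersection cohomology of `Z` with values in `R^j f_* ℚ`,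
`j = p + q + a - κ` (nothing for `j < 0`), except that for `(a, p, q) = (0, 1, 1)` there are also the
classes of divisors of `X` whose image in `Z` is a point. For `j = 0` and `j = 1` its dimension is
called `base p q` and `one p q`. -/
structure IsFibredOver (X : Twisted 5) (κ : ℕ) (base one : ℕ → ℕ → ℕ) : Prop where
  below : ∀ a p q, p + q + a ≤ 2 → (a, p, q) ≠ (0, 1, 1) → p + q + a < κ →
    layerNumber X a p q = 0
  bottom : ∀ a p q, p + q + a ≤ 2 → (a, p, q) ≠ (0, 1, 1) → p + q + a = κ →
    layerNumber X a p q = base p q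
  next : ∀ a p q, p + q + a ≤ 2 → (a, p, q) ≠ (0, 1, 1) → p + q + a = κ + 1 →
    layerNumber X a p q = one p q

/-- The formula `∑ (-1)^{p+q} (p - 5/2)^2 h^{p,q} = (5 / 12) c₅ + (1 / 6) c₁ c₄` of Libgober and Wood,
with `c₅ = ∑ (-1)^{p+q} h^{p,q}` and `c₁ c₄ = c`. -/
def HasChernNumber (X : Twisted 5) (c : ℤ) : Prop := 3 * moment X = 5 * euler X + 2 * c

/-- Let `X` and `Y` be smooth projective complex fivefolds with equivalent derived categories whose
canonical bundles (`ε = -1`) or anticanonical bundles (`ε = 1`) are semiample and not torsion. Then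
all Hodge numbers of `X` and `Y` agree. -/
theorem result (X Y : Twisted 5) (ε : ℤˣ) (hX : LayerRelations X ε) (hY : LayerRelations Y ε)
    (Φ : Transform X Y) (κ : ℕ) (hκ : 1 ≤ κ) (base one : ℕ → ℕ → ℕ)
    (fX : IsFibredOver X κ base one) (fY : IsFibredOver Y κ base one)
    (c : ℤ) (cX : HasChernNumber X c) (cY : HasChernNumber Y c) (p q : ℕ) :
    X.hodgeNumber p q = Y.hodgeNumber p q := by
  refine fivefolds hX hY Φ c cX cY (fun a p q h1 h2 => ?_) p q
  rcases (by omega : p + q + a < κ ∨ p + q + a = κ ∨ p + q + a = κ + 1) with h | h | h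
  · rw [fX.below a p q h1 h2 h, fY.below a p q h1 h2 h]
  · rw [fX.bottom a p q h1 h2 h, fY.bottom a p q h1 h2 h]
  · rw [fX.next a p q h1 h2 h, fY.next a p q h1 h2 h]

end Pool.Agent.Results.MP_b4fe5e_ag.SemiampleFivefolds
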