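import Pool.Agent.Y111.DI.Six

/-!
# Hodge numbers of derived equivalent sixfolds with semiample (anti)canonical bundle
-/

namespace Pool.Agent.Results.MP_b4fe5e_ag.SemiampleSixfolds

open Pool.Agent.TH125.Tw Pool.Agent.Y111.DI

/-- Let `f : X → Z` be the (anti)canonical morphism of the sixfold `X`, `κ = dim Z`. By the
decomposition theorem the part of type `(p, q)` of the `a`-th layer, `p + q + a ≤ 3`, is the part of
type `(p, q)` of the primitive intersection cohomology of `Z` with values in `R^j f_* ℚ`,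
`j = p + q + a - κ` (nothing for `j < 0`), except that divisors contracted by `f` to a point
contribute to `(a, p, q) = (0, 1, 1)`, `(0, 2, 1)` and `(0, 1, 2)`, and divisors contracted to a curve
to `(1, 1, 1)`, `(0, 2, 1)` and `(0, 1, 2)`. For `j = 0` and `j = 1` the dimension is called
`base p q` and `one p q`. The equality `real` is the symmetry under complex conjugation. -/
structure IsFibredOver (X : Twisted 6) (κ : ℕ) (base one : ℕ → ℕ → ℕ) : Prop where
  below : ∀ a p q, p + q + a ≤ 3 → ¬ Exceptional a p q → p + q + a < κ → layerNumber X a p q = 0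
  bottom : ∀ a p q, p + q + a ≤ 3 → ¬ Exceptional a p q → p + q + a = κ →
    layerNumber X a p q = base p q
  next : ∀ a p q, p + q + a ≤ 3 → ¬ Exceptional a p q → p + q + a = κ + 1 →
    layerNumber X a p q = one p q
  real : layerNumber X 0 2 1 = layerNumber X 0 1 2

/-- The formula `∑ (-1)^{p+q} (p - 3)^2 h^{p,q} = (1 / 2) c₆ + (1 / 6) c₁ c₅` of Libgober and Wood,
with `c₆ = ∑ (-1)^{p+q} h^{p,q}` and `c₁ c₅ = c`. -/
def HasChernNumber (X : Twisted 6) (c : ℤ) : Prop := 3 * moment X = 6 * euler X + 2 * c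

/-- Let `X` and `Y` be smooth projective complex sixfolds with equivalent derived categories whose
canonical bundles (`ε = -1`) or anticanonical bundles (`ε = 1`) are semiample of Iitaka dimension at
least two. Then the Hodge polynomials of `X` and `Y` differ by the multiple
`h^{1,1}(X) - h^{1,1}(Y)` of `u v (1 - u) (1 - v) (1 - u v) (1 - u² v²)`. Hence all Hodge numbers
agree if `h^{1,1}(X) = h^{1,1}(Y)`. -/
theorem result (X Y : Twisted 6) (ε : ℤˣ) (hX : LayerRelations X ε) (hY : LayerRelations Y ε)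
    (Φ : Transform X Y) (κ : ℕ) (hκ : 2 ≤ κ) (base one : ℕ → ℕ → ℕ)
    (fX : IsFibredOver X κ base one) (fY : IsFibredOver Y κ base one)
    (c : ℤ) (cX : HasChernNumber X c) (cY : HasChernNumber Y c) :
    (∀ u v : ℤ, hodgePoly X u v = hodgePoly Y u v +
      ((X.hodgeNumber 1 1 : ℤ) - Y.hodgeNumber 1 1) *
        (u * v * (1 - u) * (1 - v) * (1 - u * v) * (1 - u ^ 2 * v ^ 2))) ∧
    (X.hodgeNumber 1 1 = Y.hodgeNumber 1 1 → ∀ p q, X.hodgeNumber p q = Y.hodgeNumber p q) := by
  have key := sixfolds hX hY Φ c cX cY (fun a p q h1 h2 => by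
    rcases (by omega : p + q + a < κ ∨ p + q + a = κ ∨ p + q + a = κ + 1) with h | h | h
    · rw [fX.below a p q h1 h2 h, fY.below a p q h1 h2 h]
    · rw [fX.bottom a p q h1 h2 h, fY.bottom a p q h1 h2 h]
    · rw [fX.next a p q h1 h2 h, fY.next a p q h1 h2 h]) fX.real fY.real
  refine ⟨hodgePoly_sub key, fun h p q => ?_⟩
  have h1 := key p q
  have h2 : dh X Y 1 1 = 0 := by rw [dh, h]; ring
  rw [h2, zero_mul, dh] at h1
  omega

end Pool.Agent.Results.MP_b4fe5e_ag.SemiampleSixfolds
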