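import Pool.Agent.Y111.DI.Main

/-!
# Derived invariance of Hodge numbers: varieties fibred by their (anti)canonical morphism
-/

namespace Pool.Agent.Results.MP_b4fe5e_ag.SmallCanonicalFibres

open Finset Pool.Agent.TH125.Tw Pool.Agent.Y111.DI

/-- All fibres of the (anti)canonical morphism `X → Z` have dimension `n - κ`, where `κ = dim Z`.
Then the perverse cohomology sheaves of the direct image of the constant sheaf vanish in degrees
less than `κ - n`, and the one in degree `κ - n` is the intersection complex of `Z`: the `a`-th
layer has no classes of type `(p, q)` with `p + q < κ - a`, and for `p + q = κ - a` its part of type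
`(p, q)` is the part of type `(p, q)` of the primitive intersection cohomology of `Z`, of dimension
`prim p q`. -/
structure IsFibredOver {n : ℕ} (X : Twisted n) (κ : ℕ) (prim : ℕ → ℕ → ℕ) : Prop where
  zero : ∀ a p q, p + q + a < κ → layerNumber X a p q = 0
  bottom : ∀ a p q, p + q + a = κ → layerNumber X a p q = prim p q

/-- Let `X` and `Y` be smooth projective complex varieties of dimension `n` with equivalent derived
categories whose canonical bundles (`ε = -1`) or anticanonical bundles (`ε = 1`) are semiample. -/
theorem result {n : ℕ} (X Y : Twisted n) (ε : ℤˣ) (hX : LayerRelations X ε)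
    (hY : LayerRelations Y ε) (Φ : Transform X Y) :
    (∀ a p q t, p = 0 ∨ q = 0 → p + q + t + a = n →
      ∑ s ∈ range (t + 1), layerNumber X a (p + s) (q + s) =
        ∑ s ∈ range (t + 1), layerNumber Y a (p + s) (q + s)) ∧
    (∀ a p q, p + q + a = n →
      ∑ i ∈ range (min p q + 1) with Odd i, layerNumber X a (p - i) (q - i) =
        ∑ i ∈ range (min p q + 1) with Odd i, layerNumber Y a (p - i) (q - i)) ∧
    ((∀ a p q, p + q + a + 3 ≤ n → layerNumber X a p q = layerNumber Y a p q) →
      ∀ p q, X.hodgeNumber p q = Y.hodgeNumber p q) ∧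
    (∀ (κ : ℕ) (prim : ℕ → ℕ → ℕ), IsFibredOver X κ prim → IsFibredOver Y κ prim →
      n ≤ κ + 3 → ∀ p q, X.hodgeNumber p q = Y.hodgeNumber p q) := by
  refine ⟨fun a p q t h ht => layer_column hX hY Φ h ht, fun a p q h => layer_sums hX hY Φ h,
    fun h => hodge_eq hX hY Φ h, fun κ prim h1 h2 hn => hodge_eq hX hY Φ fun a p q hpq => ?_⟩
  rcases (by omega : p + q + a < κ ∨ p + q + a = κ) with h | h
  · rw [h1.zero a p q h, h2.zero a p q h]
  · rw [h1.bottom a p q h, h2.bottom a p q h]

end Pool.Agent.Results.MP_b4fe5e_ag.SmallCanonicalFibres
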